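import Pool.Agent.H78.DT.HAll
import Pool.Agent.H78.DT.MatG
import Pool.Agent.H78.DT.TwDefs
import Pool.Agent.H78.DT.Tau

/-!
# MP_3c9ef3_gt: reparametrised Dehn twists are smoothly isotopic to the Dehn twist

For all `n ≥ 1` with `n` not congruent to `3` modulo `4` (the case `n = 3 mod 4` is known), all
`φ ∈ Diff(S^n)` and all profiles `r`, the maps `τ_φ = φ^* ∘ τ ∘ (φ^{-1})^*` and `τ` are isotopic through
diffeomorphisms of `T^*S^n` supported in a fixed compact set.
-/

namespace Pool.Agent.Results.MP_3c9ef3_gt.TwistIsotopy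

open DT Metric

theorem result (n : ℕ) (hn : 1 ≤ n) (h3 : n % 4 ≠ 3) (E : Type) [NormedAddCommGroup E]
    [InnerProductSpace ℝ E] [CompleteSpace E] [Fact (Module.finrank ℝ E = n + 1)]
    (r : ℝ → ℝ) (hr : IsProfile r) (φ φ' : sphere (0 : E) 1 → sphere (0 : E) 1)
    (hφ : IsDiffS n φ φ') :
    CSIso (fun p => pullb φ φ' (tau r (pullb φ' φ p))) (tau r) := by
  have hE : Module.finrank ℝ E = n + 1 := Fact.out
  have : FiniteDimensional ℝ E := Module.finite_of_finrank_pos (by omega)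
  obtain ⟨τ', hτ⟩ := tau_dff (E := E) hr
  exact main_tau_gen n hn hE (h_all n hn h3) (toSD' hφ).symm (tau r) τ' hτ (tau_supp hr)
    (fun A p _ => tau_isoAct r A p)

end Pool.Agent.Results.MP_3c9ef3_gt.TwistIsotopy
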